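import Pool.Agent.H66.PO.Por

/-!
MP_90715c_gt, the dichotomy with the strong porous case: all translates which meet two disjoint
closed sets together form a uniformly porous set inside the exceptional set.
-/

open Matrix Set Filter Topology MeasureTheory

namespace Pool.Agent.H66.PO

open Pool.Agent.H90.WC Pool.Agent.H81.FG Pool.Agent.H81.TG Pool.Agent.H33.EF Pool.Agent.H33.GC
  Pool.Agent.H81.DI

theorem porous_big {Γ : Subgroup G} {C : Set G} (hC : IsCompact C)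
    (hcoc : ∀ g : G, ∃ γ ∈ Γ, γ * g ∈ C) (hgen : {p : ℂ | Gen Γ p} ∈ residual ℂ)
    {K : Set (OnePoint ℂ)} (hK : IsCompact K) (hn : K.Nontrivial) (hJ : ¬ Joins Γ K)
    {C₁ C₂ : Set (OnePoint ℂ)} (hC₁ : IsClosed C₁) (hC₂ : IsClosed C₂) (hd : Disjoint C₁ C₂) :
    Porous (Big Γ K C₁ C₂) := by
  by_cases hinf : OnePoint.infty ∈ C₁
  · rw [big_comm]
    exact porous_aux hC hcoc hgen hK hn hJ hC₂ hC₁ hd.symm
      (fun h => Set.disjoint_left.1 hd hinf h)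
  · exact porous_aux hC hcoc hgen hK hn hJ hC₁ hC₂ hd hinf

theorem porous_closure {F : Set (OnePoint ℂ)} (h : Porous F) : Porous (closure F) := by
  obtain ⟨ρ, hρ, h⟩ := h
  refine ⟨ρ, hρ, fun a r hr => ?_⟩
  obtain ⟨z, hz, hz'⟩ := h a r hr
  refine ⟨z, hz, fun v hv hmem => ?_⟩
  obtain ⟨x, ⟨w, hw, rfl⟩, hxF⟩ := mem_closure_iff.1 hmem
    (((↑) : ℂ → OnePoint ℂ) '' Metric.ball z (ρ * r))
    (OnePoint.isOpenEmbedding_coe.isOpenMap _ Metric.isOpen_ball)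
    ⟨v, mem_ball_iff_norm.2 hv, rfl⟩
  exact hz' w (mem_ball_iff_norm.1 hw) hxF

theorem Porous.mono {F F' : Set (OnePoint ℂ)} (h : Porous F) (hF : F' ⊆ F) : Porous F' := by
  obtain ⟨ρ, hρ, h⟩ := h
  refine ⟨ρ, hρ, fun a r hr => ?_⟩
  obtain ⟨z, hz, hz'⟩ := h a r hr
  exact ⟨z, hz, fun v hv hmem => hz' v hv (hF hmem)⟩

/-- (MAIN) -/
theorem dichotomy (Γ : Subgroup G) [DiscreteTopology Γ] [CompactSpace (G ⧸ Γ)] :
    ∃ E : Set ℂ, IsMeagre E ∧ volume E = 0 ∧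
      ∀ K : Set (OnePoint ℂ), IsCompact K → IsConnected K → K.Nontrivial →
        {g : G | g ∈ Γ ∧ ∃ x ∈ K, act g x ∈ K}.Finite →
        Xor
          (∀ C₁ C₂ : Set (OnePoint ℂ), IsClosed C₁ → IsClosed C₂ → Disjoint C₁ C₂ →
            Porous (closure (Big Γ K C₁ C₂)) ∧
            dimH {z : ℂ | (z : OnePoint ℂ) ∈ closure (Big Γ K C₁ C₂)} < 2 ∧
            ∀ p : ℂ, (p : OnePoint ℂ) ∈ closure (Big Γ K C₁ C₂) → p ∈ E)
          (Fat K ∧
            (∀ 𝒪 : Set (Set (OnePoint ℂ)), 𝒪.Finite → (∀ U ∈ 𝒪, IsOpen U ∧ U.Nonempty) →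
              {g : G | g ∈ Γ ∧ ∀ U ∈ 𝒪, ∃ x ∈ K, act g x ∈ U}.Infinite) ∧
            ∀ p : ℂ, (p : OnePoint ℂ) ∈ K → (∃ u : ℂ, ∃ ε > (0 : ℝ), ∀ᶠ k : ℕ in atTop,
              ∀ z : ℂ, ‖z - (p + u / 4 ^ k)‖ < ε / 4 ^ k → (z : OnePoint ℂ) ∉ K) → p ∈ E) := by
  obtain ⟨C, hC, hcoc⟩ := coc_of_compact Γ
  obtain ⟨E2, k1, k2, k3⟩ := cone gen2 Γ
  refine ⟨{p : ℂ | Gen Γ p}ᶜ ∪ E2, ?_, ?_, ?_⟩
  · rw [IsMeagre, compl_union, compl_compl]
    exact inter_mem (gen_residual Γ) k1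
  · exact measure_union_null (gen_ae Γ) k2
  · intro K hK hKc hn hfin
    by_cases hJ : Joins Γ K
    · right
      have hfat : Fat K := fun η hη => everywhereJ hC hcoc hK hKc.isPreconnected hfin
        (fun g hg x hx hgx => ⟨hg, x, hx, hgx⟩) hKc.nonempty hJ hη
      have hnp := not_porous hK hKc.isPreconnected hn hfat
      have hall : JoinsAll Γ K := all_of_dense hC hcoc (gen_residual Γ) (dense_of_not_porous hnp)
      refine ⟨⟨hfat, fun 𝒪 h𝒪 hO hfin' => ?_, fun p hp hu =>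
        Or.inr (k3 K hK hKc.isPreconnected hn hfin p hp hu)⟩, fun h => ?_⟩
      · obtain ⟨g, hg, hgΦ, h1⟩ := hall 𝒪 h𝒪 hO _ hfin'
        exact hgΦ ⟨hg, h1⟩
      · obtain ⟨a, ha, b, hb, hab⟩ := hn
        refine hnp (Porous.mono (h {a} {b} isClosed_singleton isClosed_singleton
          (Set.disjoint_singleton.2 hab)).1 fun x hx => subset_closure ?_)
        refine ⟨1, Γ.one_mem, ⟨x, hx, act_one x⟩, ⟨a, ha, ?_⟩, b, hb, ?_⟩
        · rw [act_one]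
          rfl
        · rw [act_one]
          rfl
    · left
      refine ⟨fun C₁ C₂ hC₁ hC₂ hd => ?_, fun h => ?_⟩
      · have hpor := porous_closure (porous_big hC hcoc (gen_residual Γ) hK hn hJ hC₁ hC₂ hd)
        exact ⟨hpor, dimH_lt_two_of_porous hpor, fun p hp =>
          Or.inl (not_gen hK hn hJ hC₁ hC₂ hd hp)⟩
      · exact hJ (joins_of_all (all_of_dense hC hcoc (gen_residual Γ)
          (dense_of_not_porous (not_porous hK hKc.isPreconnected hn h.1))))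

end Pool.Agent.H66.PO
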