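import Pool.Agent.H33.EF.NslJ

/-!
MP_90715c_gt, the porous case: limits of translates do not meet generic points.
-/

open Matrix Set Filter Topology

namespace Pool.Agent.H66.PO

open Pool.Agent.H90.WC Pool.Agent.H81.FG Pool.Agent.H81.TG Pool.Agent.H33.EF Pool.Agent.H33.GC

/-- the union of all translates which meet both `C₁` and `C₂` -/
def Big (Γ : Subgroup G) (K C₁ C₂ : Set (OnePoint ℂ)) : Set (OnePoint ℂ) :=
  {x | ∃ g ∈ Γ, (∃ k ∈ K, act g k = x) ∧ (∃ k ∈ K, act g k ∈ C₁) ∧ ∃ k ∈ K, act g k ∈ C₂}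

/-- translates meet all pairs of neighbourhoods of `p` and `y` -/
def JoinsAt (Γ : Subgroup G) (K : Set (OnePoint ℂ)) (p y : OnePoint ℂ) : Prop :=
  ∀ U V : Set (OnePoint ℂ), IsOpen U → p ∈ U → IsOpen V → y ∈ V → ∀ Φ : Set G,
    Φ.Finite → ∃ g ∈ Γ, g ∉ Φ ∧ (∃ k ∈ K, act g k ∈ U) ∧ ∃ k ∈ K, act g k ∈ V

theorem joins_of_joinsAt {Γ : Subgroup G} {p : ℂ} (hp : Gen Γ p) {K : Set (OnePoint ℂ)}
    {y : OnePoint ℂ} (hyp : y ≠ (p : OnePoint ℂ)) (h : JoinsAt Γ K p y) : Joins Γ K := by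
  intro U V hU hU' hV hV' Φ hΦ
  have hUc : IsOpen (((↑) : ℂ → OnePoint ℂ) ⁻¹' U) := hU.preimage OnePoint.continuous_coe
  have hVc : IsOpen (((↑) : ℂ → OnePoint ℂ) ⁻¹' V) := hV.preimage OnePoint.continuous_coe
  obtain ⟨X, hX⟩ : ∃ X : ℂ, (X : OnePoint ℂ) ∈ U := by
    obtain ⟨x, hx, X, rfl⟩ := OnePoint.denseRange_coe.inter_open_nonempty U hU hU'
    exact ⟨X, hx⟩
  obtain ⟨Y0, hY0⟩ : ∃ X : ℂ, (X : OnePoint ℂ) ∈ V := by
    obtain ⟨x, hx, X, rfl⟩ := OnePoint.denseRange_coe.inter_open_nonempty V hV hV'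
    exact ⟨X, hx⟩
  obtain ⟨Y, hY, hYX⟩ : ∃ Y ∈ ((↑) : ℂ → OnePoint ℂ) ⁻¹' V, Y ∈ ({X}ᶜ : Set ℂ) := by
    obtain ⟨Y, hY1, hY2⟩ := (dense_compl_singleton X).inter_open_nonempty _ hVc ⟨Y0, hY0⟩
    exact ⟨Y, hY1, hY2⟩
  have hXY : X ≠ Y := fun h => hYX h.symm
  have hXY' : 0 < ‖X - Y‖ := norm_pos_iff.2 (sub_ne_zero.2 hXY)
  obtain ⟨ε, hε, hball⟩ := Metric.isOpen_iff.1 hUc X hX
  obtain ⟨ε', hε', hball'⟩ := Metric.isOpen_iff.1 hVc Y hY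
  obtain ⟨g, hg, -, ⟨x, hx, k, hk, e⟩, x', hx', k', hk', e'⟩ := two_balls hp
    (K := {(p : OnePoint ℂ), y}) (Or.inl rfl) (q := y) (Or.inr rfl) hyp
    hXY (lt_min (lt_min hε hε') (half_pos hXY')) finite_empty
  have hxU : (x : OnePoint ℂ) ∈ U :=
    hball (mem_ball_iff_norm.2 (hx.trans_le ((min_le_left _ _).trans (min_le_left _ _))))
  have hxV : (x' : OnePoint ℂ) ∈ V :=
    hball' (mem_ball_iff_norm.2 (hx'.trans_le ((min_le_left _ _).trans (min_le_right _ _))))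
  have hne : k ≠ k' := by
    rintro rfl
    have h1 : x = x' := OnePoint.coe_injective (e.symm.trans e')
    subst h1
    have h2 := hx.trans_le (min_le_right _ _)
    have h3 := hx'.trans_le (min_le_right _ _)
    have h4 : ‖X - Y‖ ≤ ‖x - X‖ + ‖x - Y‖ := by
      have e5 : X - Y = -(x - X) + (x - Y) := by ring
      rw [e5]
      exact (norm_add_le _ _).trans (by rw [norm_neg])
    linarith
  -- the pull back
  have main : ∀ U₁ V₁ : Set (OnePoint ℂ), IsOpen U₁ → IsOpen V₁ → act g p ∈ U₁ → act g y ∈ V₁ →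
      ∃ f ∈ Γ, f ∉ Φ ∧ (∃ k ∈ K, act f k ∈ U₁) ∧ ∃ k ∈ K, act f k ∈ V₁ := by
    intro U₁ V₁ hU₁ hV₁ h1 h2
    obtain ⟨f, hf, hfΦ, ⟨a, ha, ha'⟩, b, hb, hb'⟩ := h (act g ⁻¹' U₁) (act g ⁻¹' V₁)
      (hU₁.preimage (continuous_act g)) h1 (hV₁.preimage (continuous_act g)) h2
      _ (hΦ.image fun f => g⁻¹ * f)
    refine ⟨g * f, Γ.mul_mem hg hf, ?_, ⟨a, ha, ?_⟩, b, hb, ?_⟩
    · intro hmem
      exact hfΦ ⟨_, hmem, by group⟩
    · rw [act_mul]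
      exact ha'
    · rw [act_mul]
      exact hb'
  rcases hk with rfl | rfl
  · rcases hk' with rfl | rfl
    · exact absurd rfl hne
    · exact main U V hU hV (by rw [e]; exact hxU) (by rw [e']; exact hxV)
  · rcases hk' with rfl | rfl
    · obtain ⟨f, hf, hfΦ, h1, h2⟩ := main V U hV hU (by rw [e']; exact hxV) (by rw [e]; exact hxU)
      exact ⟨f, hf, hfΦ, h2, h1⟩
    · exact absurd rfl hne

theorem joins_of_image {Γ : Subgroup G} {K : Set (OnePoint ℂ)} {g : G} (hg : g ∈ Γ)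
    (h : Joins Γ (act g '' K)) : Joins Γ K := by
  intro U V hU hU' hV hV' Φ hΦ
  obtain ⟨f, hf, hfΦ, ⟨_, ⟨a, ha, rfl⟩, ha'⟩, _, ⟨b, hb, rfl⟩, hb'⟩ := h U V hU hU' hV hV'
    _ (hΦ.image fun f => f * g⁻¹)
  refine ⟨f * g, Γ.mul_mem hf hg, ?_, ⟨a, ha, ?_⟩, b, hb, ?_⟩
  · intro hmem
    exact hfΦ ⟨_, hmem, by group⟩
  · rw [act_mul]
    exact ha'
  · rw [act_mul]
    exact hb'

theorem not_mem_image {Γ : Subgroup G} {K : Set (OnePoint ℂ)} (hn : K.Nontrivial)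
    (hJ : ¬ Joins Γ K) {p : ℂ} (hp : Gen Γ p) {g : G} (hg : g ∈ Γ) :
    (p : OnePoint ℂ) ∉ act g '' K := by
  intro h
  refine hJ (joins_of_image hg (joins_of_gen hp h (hn.image ?_)))
  intro a b hab
  have := congrArg (act g⁻¹) hab
  simpa [act_inv_act] using this

theorem big_comm (Γ : Subgroup G) (K C₁ C₂ : Set (OnePoint ℂ)) :
    Big Γ K C₁ C₂ = Big Γ K C₂ C₁ := by
  ext x
  constructor
  · rintro ⟨g, hg, h1, h2, h3⟩
    exact ⟨g, hg, h1, h3, h2⟩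
  · rintro ⟨g, hg, h1, h2, h3⟩
    exact ⟨g, hg, h1, h3, h2⟩

theorem not_gen_aux {Γ : Subgroup G} {K : Set (OnePoint ℂ)} (hK : IsCompact K)
    (hn : K.Nontrivial) (hJ : ¬ Joins Γ K) {C₁ C₂ : Set (OnePoint ℂ)} (hC : IsClosed C₁)
    {p : ℂ} (hpC : (p : OnePoint ℂ) ∉ C₁) (hp : (p : OnePoint ℂ) ∈ closure (Big Γ K C₁ C₂)) :
    ¬ Gen Γ p := by
  intro hgen
  have hno := fun g (hg : g ∈ Γ) => not_mem_image hn hJ hgen hg
  -- infinitely many translates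
  have h1 : ∀ U : Set (OnePoint ℂ), IsOpen U → (p : OnePoint ℂ) ∈ U → ∀ Φ : Set G, Φ.Finite →
      ∃ g ∈ Γ, g ∉ Φ ∧ (∃ k ∈ K, act g k ∈ U) ∧ ∃ k ∈ K, act g k ∈ C₁ := by
    intro U hU hpU Φ hΦ
    have hΦ' : (Φ ∩ Γ).Finite := hΦ.inter_of_left _
    have hcl : IsClosed (⋃ g ∈ Φ ∩ (Γ : Set G), act g '' K) :=
      hΦ'.isClosed_biUnion fun g _ => (hK.image (continuous_act g)).isClosed
    obtain ⟨x, ⟨hxU, hxn⟩, g, hg, ⟨k, hk, rfl⟩, h2, -⟩ := mem_closure_iff.1 hp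
      (U ∩ (⋃ g ∈ Φ ∩ (Γ : Set G), act g '' K)ᶜ) (hU.inter hcl.isOpen_compl) ⟨hpU, by
        simp only [mem_compl_iff, mem_iUnion, not_exists]
        rintro g ⟨-, hg⟩
        exact hno g hg⟩
    refine ⟨g, hg, ?_, ⟨k, hk, hxU⟩, h2⟩
    intro hgΦ
    apply hxn
    simp only [mem_iUnion]
    exact ⟨g, ⟨hgΦ, hg⟩, k, hk, rfl⟩
  -- a second point
  obtain ⟨y, hy, hat⟩ : ∃ y ∈ C₁, JoinsAt Γ K p y := by
    by_contra hcon
    push Not at hcon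
    unfold JoinsAt at hcon
    push Not at hcon
    choose! U V hU hpU hV hyV Φ hΦ hF using hcon
    obtain ⟨t, ht, htC⟩ := hC.isCompact.elim_nhds_subcover V
      fun y hy => (hV y hy).mem_nhds (hyV y hy)
    obtain ⟨g, hg, hgΦ, ⟨k, hk, hkU⟩, k', hk', hkC⟩ := h1 (⋂ y ∈ t, U y)
      (isOpen_biInter_finset fun y hy => hU y (ht y hy))
      (mem_iInter₂.2 fun y hy => hpU y (ht y hy)) (⋃ y ∈ (t : Set (OnePoint ℂ)), Φ y)
      (t.finite_toSet.biUnion fun y hy => hΦ y (ht y hy))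
    obtain ⟨y, hyt, hyV'⟩ := mem_iUnion₂.1 (htC hkC)
    refine hF y (ht y hyt) g hg ?_ ⟨k, hk, mem_iInter₂.1 hkU y hyt⟩ k' hk' hyV'
    intro hmem
    exact hgΦ (mem_biUnion (Finset.mem_coe.2 hyt) hmem)
  exact hJ (joins_of_joinsAt hgen (fun e => hpC (e ▸ hy)) hat)

/-- the closure of the union of the translates which meet both sets misses the generic points -/
theorem not_gen {Γ : Subgroup G} {K : Set (OnePoint ℂ)} (hK : IsCompact K)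
    (hn : K.Nontrivial) (hJ : ¬ Joins Γ K) {C₁ C₂ : Set (OnePoint ℂ)} (hC₁ : IsClosed C₁)
    (hC₂ : IsClosed C₂) (hd : Disjoint C₁ C₂) {p : ℂ}
    (hp : (p : OnePoint ℂ) ∈ closure (Big Γ K C₁ C₂)) : ¬ Gen Γ p := by
  by_cases h : (p : OnePoint ℂ) ∈ C₁
  · rw [big_comm] at hp
    exact not_gen_aux hK hn hJ hC₂ (fun h' => Set.disjoint_left.1 hd h h') hp
  · exact not_gen_aux hK hn hJ hC₁ h hp

end Pool.Agent.H66.PO
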