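import Pool.Agent.H66.PO.Pair
import Pool.Agent.H81.DI.Main

/-!
MP_90715c_gt, the porous case: the union of the translates which meet two disjoint closed sets is
uniformly porous.
-/

open Matrix Set Filter Topology MeasureTheory

namespace Pool.Agent.H66.PO

open Pool.Agent.H90.WC Pool.Agent.H81.FG Pool.Agent.H81.TG Pool.Agent.H33.EF Pool.Agent.H33.GC
  Pool.Agent.H81.DI

/-- two limit points of translates -/
theorem joinsAt_of_tendsto {Γ : Subgroup G} {K : Set (OnePoint ℂ)} (hK : IsCompact K)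
    (hn : K.Nontrivial) (hJ : ¬ Joins Γ K) {p : ℂ} (hp : Gen Γ p) {y : OnePoint ℂ}
    {𝒰 : Ultrafilter ℕ} {f : ℕ → G} (hf : ∀ n, f n ∈ Γ) {k k' : ℕ → OnePoint ℂ}
    (hk : ∀ n, k n ∈ K) (hk' : ∀ n, k' n ∈ K)
    (h1 : Tendsto (fun n => act (f n) (k n)) 𝒰 (𝓝 (p : OnePoint ℂ)))
    (h2 : Tendsto (fun n => act (f n) (k' n)) 𝒰 (𝓝 y)) : JoinsAt Γ K p y := by
  intro U V hU hpU hV hyV Φ hΦ
  have h3 : ∀ᶠ n in 𝒰, f n ∉ Φ := by
    by_contra hcon
    rw [Ultrafilter.eventually_not, not_not] at hcon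
    have h5 : (⋃ g ∈ Φ, {n : ℕ | f n = g}) ∈ 𝒰 := by
      filter_upwards [hcon] with n hn
      simp only [mem_iUnion, mem_ofPred_eq]
      exact ⟨_, hn, rfl⟩
    rw [Ultrafilter.finite_biUnion_mem_iff hΦ] at h5
    obtain ⟨g, -, hg⟩ := h5
    have hg' : ∀ᶠ n in 𝒰, f n = g := hg
    obtain ⟨n, hn⟩ := hg'.exists
    have hgΓ : g ∈ Γ := hn ▸ hf n
    refine not_mem_image ‹K.Nontrivial› hJ hp hgΓ ?_
    refine (hK.image (continuous_act g)).isClosed.mem_of_tendsto h1 ?_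
    filter_upwards [hg'] with n hn
    rw [hn]
    exact ⟨k n, hk n, rfl⟩
  obtain ⟨n, ⟨h4, h5⟩, h6⟩ := (((h1.eventually (hU.mem_nhds hpU)).and
    (h2.eventually (hV.mem_nhds hyV))).and h3).exists
  exact ⟨f n, hf n, h6, ⟨k n, hk n, h4⟩, k' n, hk' n, h5⟩

theorem bdd_of_infty {C₁ : Set (OnePoint ℂ)} (hC : IsClosed C₁) (hinf : OnePoint.infty ∉ C₁) :
    ∃ R : ℝ, ∀ c : ℂ, (c : OnePoint ℂ) ∈ C₁ → ‖c‖ ≤ R := by
  have h0 : Tendsto ((↑) : ℂ → OnePoint ℂ) (cocompact ℂ) (𝓝 OnePoint.infty) := by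
    rw [← Filter.coclosedCompact_eq_cocompact]
    exact OnePoint.tendsto_coe_infty
  have h1 : ∀ᶠ c : ℂ in cocompact ℂ, (c : OnePoint ℂ) ∉ C₁ :=
    h0.eventually (hC.isOpen_compl.mem_nhds hinf)
  rw [← Metric.cobounded_eq_cocompact] at h1
  obtain ⟨R, -, hR⟩ := (hasBasis_cobounded_norm (E := ℂ)).eventually_iff.1 h1
  refine ⟨R, fun c hc => ?_⟩
  by_contra h
  push Not at h
  exact hR h.le hc

theorem sep_of_disjoint {C₁ C₂ : Set (OnePoint ℂ)} (hC₁ : IsClosed C₁) (hC₂ : IsClosed C₂)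
    (hd : Disjoint C₁ C₂) {R : ℝ} (hR : ∀ c : ℂ, (c : OnePoint ℂ) ∈ C₁ → ‖c‖ ≤ R) :
    ∃ δ > (0 : ℝ), ∀ c c' : ℂ, (c : OnePoint ℂ) ∈ C₁ → (c' : OnePoint ℂ) ∈ C₂ →
      δ ≤ ‖c - c'‖ := by
  have hA : IsCompact (((↑) : ℂ → OnePoint ℂ) ⁻¹' C₁) := by
    refine Metric.isCompact_of_isClosed_isBounded (hC₁.preimage OnePoint.continuous_coe) ?_
    refine (Metric.isBounded_closedBall (x := (0 : ℂ)) (r := R)).subset fun c hc => ?_
    rw [Metric.mem_closedBall, dist_zero_right]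
    exact hR c hc
  have hB : IsClosed (((↑) : ℂ → OnePoint ℂ) ⁻¹' C₂) := hC₂.preimage OnePoint.continuous_coe
  obtain ⟨δ, hδ, h⟩ := (hd.preimage ((↑) : ℂ → OnePoint ℂ)).exists_thickenings hA hB
  refine ⟨δ, hδ, fun c c' hc hc' => ?_⟩
  by_contra hcon
  push Not at hcon
  have h1 : c' ∈ Metric.thickening δ (((↑) : ℂ → OnePoint ℂ) ⁻¹' C₁) := by
    refine Metric.mem_thickening_iff.2 ⟨c, hc, ?_⟩
    rw [dist_comm, dist_eq_norm]
    exact hcon
  exact Set.disjoint_left.1 h h1 (Metric.self_subset_thickening hδ _ hc')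

theorem porous_aux {Γ : Subgroup G} {C : Set G} (hC : IsCompact C)
    (hcoc : ∀ g : G, ∃ γ ∈ Γ, γ * g ∈ C) (hgen : {p : ℂ | Gen Γ p} ∈ residual ℂ)
    {K : Set (OnePoint ℂ)} (hK : IsCompact K) (hn : K.Nontrivial) (hJ : ¬ Joins Γ K)
    {C₁ C₂ : Set (OnePoint ℂ)} (hC₁ : IsClosed C₁) (hC₂ : IsClosed C₂) (hd : Disjoint C₁ C₂)
    (hinf : OnePoint.infty ∉ C₁) : Porous (Big Γ K C₁ C₂) := by
  by_contra hpor
  obtain ⟨R, hR⟩ := bdd_of_infty hC₁ hinf
  obtain ⟨δ, hδ, hsep⟩ := sep_of_disjoint hC₁ hC₂ hd hR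
  choose a r hr hdn using dense_of_not_porous hpor
  choose γ hγ hdC using fun n => hcoc (fr (a n) (r n) (hr n))
  set 𝒰 : Ultrafilter ℕ := Filter.hyperfilter ℕ with h𝒰
  have hle : (𝒰 : Filter ℕ) ≤ atTop := by
    rw [← Nat.cofinite_eq_atTop]
    exact Filter.hyperfilter_le_cofinite
  obtain ⟨d, -, hdl⟩ := hC.ultrafilter_le_nhds (𝒰.map fun n => γ n * fr (a n) (r n) (hr n))
    (by
      rw [Ultrafilter.coe_map, le_principal_iff, mem_map]
      exact Eventually.of_forall hdC)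
  have hdt : Tendsto (fun n => γ n * fr (a n) (r n) (hr n)) 𝒰 (𝓝 d) := hdl
  have hlimex : ∀ u : ℕ → OnePoint ℂ, ∃ x, Tendsto u 𝒰 (𝓝 x) := fun u =>
    ⟨(𝒰.map u).lim, (𝒰.map u).le_nhds_lim⟩
  obtain ⟨q, hq⟩ := hlimex fun n => ((-(a n) / r n : ℂ) : OnePoint ℂ)
  -- the window
  set W : Set (OnePoint ℂ) := act d⁻¹ ⁻¹' (((↑) : ℂ → OnePoint ℂ) '' Metric.ball 0 1) with hW
  have hWo : IsOpen W :=
    (OnePoint.isOpenEmbedding_coe.isOpenMap _ Metric.isOpen_ball).preimage (continuous_act _)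
  have hWn : W.Nonempty := by
    refine ⟨act d ((0 : ℂ) : OnePoint ℂ), 0, Metric.mem_ball_self one_pos, ?_⟩
    rw [act_inv_act]
  have hWc : IsOpen (((↑) : ℂ → OnePoint ℂ) ⁻¹' W) := hWo.preimage OnePoint.continuous_coe
  obtain ⟨p0, hp0⟩ : (((↑) : ℂ → OnePoint ℂ) ⁻¹' W).Nonempty := by
    obtain ⟨x, hx, X, rfl⟩ := OnePoint.denseRange_coe.inter_open_nonempty W hWo hWn
    exact ⟨X, hx⟩
  have hres : {p : ℂ | (p : OnePoint ℂ) ≠ act d q} ∈ residual ℂ := by
    by_cases h : ∃ c : ℂ, (c : OnePoint ℂ) = act d q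
    · obtain ⟨c, hc⟩ := h
      have e : {p : ℂ | (p : OnePoint ℂ) ≠ act d q} = {c}ᶜ := by
        ext p
        rw [mem_ofPred_eq, mem_compl_singleton_iff, ← hc, Ne, OnePoint.coe_injective.eq_iff]
      rw [e]
      exact residual_of_dense_open isOpen_compl_singleton (dense_compl_singleton c)
    · push Not at h
      have e : {p : ℂ | (p : OnePoint ℂ) ≠ act d q} = univ := by
        ext p
        simp only [mem_ofPred_eq, mem_univ, iff_true]
        exact h p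
      rw [e]
      exact univ_mem
  obtain ⟨p, hpW, hp, hpq⟩ := (dense_of_mem_residual (inter_mem hgen hres)).inter_open_nonempty
    _ hWc ⟨p0, hp0⟩
  obtain ⟨z0, hz0, hz0p⟩ := hpW
  rw [mem_ball_zero_iff] at hz0
  have hdz : act d (z0 : OnePoint ℂ) = p := by rw [hz0p, act_act_inv]
  have hz0q : (z0 : OnePoint ℂ) ≠ q := by
    rintro h
    exact hpq (by rw [← h, hdz])
  -- points of translates
  have hv : ∀ n, ∃ v : ℂ, ‖v - (r n * z0 + a n)‖ < r n / (n + 1) ∧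
      (v : OnePoint ℂ) ∈ Big Γ K C₁ C₂ := by
    intro n
    refine hdn n _ ?_
    rw [add_sub_cancel_right, norm_mul, Complex.norm_real, Real.norm_of_nonneg (hr n).le]
    exact mul_le_of_le_one_right (hr n).le hz0.le
  choose v hv1 g hg hk hk1 hk2 using hv
  choose k hkK hkv using hk
  choose k1 hk1K hk1C using hk1
  choose k2 hk2K hk2C using hk2
  have hrn : ∀ n, (r n : ℂ) ≠ 0 := fun n => by exact_mod_cast (hr n).ne'
  have hlim : Tendsto (fun n => (v n - a n) / r n) 𝒰 (𝓝 z0) := by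
    refine Tendsto.mono_left ?_ hle
    rw [tendsto_iff_norm_sub_tendsto_zero]
    refine squeeze_zero (fun n => norm_nonneg _) (fun n => ?_)
      tendsto_one_div_add_atTop_nhds_zero_nat
    have e : (v n - a n) / r n - z0 = (v n - (r n * z0 + a n)) / r n := by
      have := hrn n
      field_simp
      ring
    rw [e, norm_div, Complex.norm_real, Real.norm_of_nonneg (hr n).le, div_le_iff₀ (hr n)]
    calc ‖v n - (r n * z0 + a n)‖ ≤ r n / (n + 1) := (hv1 n).le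
      _ = 1 / ((n : ℝ) + 1) * r n := by ring
  have hact : ∀ (n : ℕ) (w : ℂ), act (fr (a n) (r n) (hr n)) (((w - a n) / r n : ℂ) : OnePoint ℂ) =
      (w : OnePoint ℂ) := by
    intro n w
    rw [act_fr]
    congr 1
    have := hrn n
    field_simp
    ring
  have hfΓ : ∀ n, γ n * g n ∈ Γ := fun n => Γ.mul_mem (hγ n) (hg n)
  have hT0 : Tendsto (fun n => act (γ n * g n) (k n)) 𝒰 (𝓝 (p : OnePoint ℂ)) := by
    have h1 := tendsto_act hdt ((OnePoint.continuous_coe.tendsto z0).comp hlim)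
    rw [hdz] at h1
    refine h1.congr fun n => ?_
    change act (γ n * fr (a n) (r n) (hr n)) (((v n - a n) / r n : ℂ) : OnePoint ℂ) = _
    rw [act_mul, hact, act_mul, hkv]
  -- the limits of the points in `C₁` and `C₂`, seen from the frames
  obtain ⟨u1, hu1⟩ := hlimex fun n => act (fr (a n) (r n) (hr n))⁻¹ (act (g n) (k1 n))
  obtain ⟨u2, hu2⟩ := hlimex fun n => act (fr (a n) (r n) (hr n))⁻¹ (act (g n) (k2 n))
  have hT : ∀ (k' : ℕ → OnePoint ℂ) (u : OnePoint ℂ),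
      Tendsto (fun n => act (fr (a n) (r n) (hr n))⁻¹ (act (g n) (k' n))) 𝒰 (𝓝 u) →
      Tendsto (fun n => act (γ n * g n) (k' n)) 𝒰 (𝓝 (act d u)) := by
    intro k' u hu
    refine (tendsto_act hdt hu).congr fun n => ?_
    rw [act_mul, act_act_inv, act_mul]
  have hno : ∀ (k' : ℕ → OnePoint ℂ) (u : OnePoint ℂ), (∀ n, k' n ∈ K) →
      Tendsto (fun n => act (fr (a n) (r n) (hr n))⁻¹ (act (g n) (k' n))) 𝒰 (𝓝 u) →
      u = (z0 : OnePoint ℂ) := by
    intro k' u hk' hu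
    by_contra hne
    refine hJ (joins_of_joinsAt hp (y := act d u) (fun e => hne ?_)
      (joinsAt_of_tendsto hK hn hJ hp hfΓ hkK hk' hT0 (hT k' u hu)))
    rw [← hdz] at e
    have := congrArg (act d⁻¹) e
    rwa [act_inv_act, act_inv_act] at this
  have e1 := hno k1 u1 hk1K hu1
  have e2 := hno k2 u2 hk2K hu2
  rw [e1] at hu1
  rw [e2] at hu2
  -- coordinates
  have hc1 : ∀ n, ∃ c : ℂ, (c : OnePoint ℂ) = act (g n) (k1 n) := by
    intro n
    refine OnePoint.ne_infty_iff_exists.1 fun h => hinf ?_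
    rw [← h]
    exact hk1C n
  choose c1 hc1 using hc1
  have hc1R : ∀ n, ‖c1 n‖ ≤ R := fun n => hR _ (by rw [hc1]; exact hk1C n)
  have hinvact : ∀ (n : ℕ) (w : ℂ), act (fr (a n) (r n) (hr n))⁻¹ (w : OnePoint ℂ) =
      (((w - a n) / r n : ℂ) : OnePoint ℂ) := by
    intro n w
    rw [← hact n w, act_inv_act]
  have hs1 : Tendsto (fun n => (c1 n - a n) / r n) 𝒰 (𝓝 z0) := by
    rw [OnePoint.isOpenEmbedding_coe.isEmbedding.tendsto_nhds_iff]
    refine hu1.congr fun n => ?_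
    rw [← hc1, hinvact]
    rfl
  have hfin : ∀ᶠ n in 𝒰, act (fr (a n) (r n) (hr n))⁻¹ (act (g n) (k2 n)) ≠ OnePoint.infty :=
    hu2.eventually (isOpen_ne.mem_nhds (OnePoint.coe_ne_infty z0))
  have hs : ∀ n, ∃ s : ℂ, act (fr (a n) (r n) (hr n))⁻¹ (act (g n) (k2 n)) ≠ OnePoint.infty →
      (s : OnePoint ℂ) = act (fr (a n) (r n) (hr n))⁻¹ (act (g n) (k2 n)) := by
    intro n
    by_cases h : act (fr (a n) (r n) (hr n))⁻¹ (act (g n) (k2 n)) = OnePoint.infty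
    · exact ⟨0, fun h' => absurd h h'⟩
    · obtain ⟨s, hs⟩ := OnePoint.ne_infty_iff_exists.1 h
      exact ⟨s, fun _ => hs⟩
  choose s hs using hs
  have hs2 : Tendsto s 𝒰 (𝓝 z0) := by
    rw [OnePoint.isOpenEmbedding_coe.isEmbedding.tendsto_nhds_iff]
    refine hu2.congr' ?_
    filter_upwards [hfin] with n h
    exact (hs n h).symm
  have hc2 : ∀ᶠ n in 𝒰, ((r n * s n + a n : ℂ) : OnePoint ℂ) ∈ C₂ := by
    filter_upwards [hfin] with n h
    have h1 : act (fr (a n) (r n) (hr n)) (s n : OnePoint ℂ) = act (g n) (k2 n) := by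
      rw [hs n h, act_act_inv]
    rw [act_fr] at h1
    rw [h1]
    exact hk2C n
  by_cases hb : ∃ B : ℝ, ∀ᶠ n in 𝒰, r n ≤ B
  · obtain ⟨B, hB⟩ := hb
    have h1 : Tendsto (fun n => ‖(c1 n - a n) / r n - s n‖) 𝒰 (𝓝 0) := by
      have := (hs1.sub hs2).norm
      rwa [sub_self, norm_zero] at this
    have h2 : ∀ᶠ n in 𝒰, ‖(c1 n - a n) / r n - s n‖ < δ / (|B| + 1) :=
      h1.eventually (gt_mem_nhds (by positivity))
    obtain ⟨n, ⟨h3, h4⟩, h5⟩ := ((h2.and hB).and hc2).exists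
    have h6 := hsep (c1 n) (r n * s n + a n) (by rw [hc1]; exact hk1C n) h5
    have e : c1 n - (r n * s n + a n) = r n * ((c1 n - a n) / r n - s n) := by
      have := hrn n
      field_simp
      ring
    rw [e, norm_mul, Complex.norm_real, Real.norm_of_nonneg (hr n).le] at h6
    have h7 : r n * ‖(c1 n - a n) / r n - s n‖ < δ := by
      calc r n * ‖(c1 n - a n) / r n - s n‖ ≤ (|B| + 1) * ‖(c1 n - a n) / r n - s n‖ := by
            refine mul_le_mul_of_nonneg_right ?_ (norm_nonneg _)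
            have := le_abs_self B
            linarith
        _ < (|B| + 1) * (δ / (|B| + 1)) := mul_lt_mul_of_pos_left h3 (by positivity)
        _ = δ := by field_simp
    linarith
  · push Not at hb
    have h1 : Tendsto r 𝒰 atTop := tendsto_atTop.2 fun B => (hb B).mono fun n h => h.le
    have h2 : Tendsto (fun n => c1 n / r n) 𝒰 (𝓝 0) := by
      rw [tendsto_zero_iff_norm_tendsto_zero]
      refine squeeze_zero (fun n => norm_nonneg _) (fun n => ?_) (h1.const_div_atTop (max R 0))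
      rw [norm_div, Complex.norm_real, Real.norm_of_nonneg (hr n).le]
      exact div_le_div_of_nonneg_right ((hc1R n).trans (le_max_left _ _)) (hr n).le
    have h3 : Tendsto (fun n => -(a n) / r n) 𝒰 (𝓝 z0) := by
      have h4 := hs1.sub h2
      rw [sub_zero] at h4
      refine h4.congr fun n => ?_
      have := hrn n
      field_simp
      ring
    exact hz0q (tendsto_nhds_unique ((OnePoint.continuous_coe.tendsto z0).comp h3) hq)

end Pool.Agent.H66.PO
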